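import Pool.Agent.H.MP_4451bf_co.Defs

namespace Pool.Agent.H.MP_4451bf_co

open Finset Classical

variable {V : Type} [Fintype V]

noncomputable def wt (p : ℝ) (B : Finset V) : ℝ := p ^ B.card * (1 - p) ^ (Fintype.card V - B.card)

theorem wt_nonneg {p : ℝ} (h0 : 0 ≤ p) (h1 : p ≤ 1) (B : Finset V) : 0 ≤ wt p B :=
  mul_nonneg (pow_nonneg h0 _) (pow_nonneg (by linarith) _)

theorem E_sub (p : ℝ) (T : Finset V) :
    ∑ B : Finset V, wt p B * (if T ⊆ B then 1 else 0) = p ^ T.card := by
  have h := Finset.prod_add (fun _ : V => p) (fun v => if v ∈ T then 0 else 1 - p) univ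
  have h1 : ∏ v : V, (p + if v ∈ T then 0 else 1 - p) = p ^ T.card := by
    have : ∀ v : V, (p + if v ∈ T then 0 else 1 - p) = if v ∈ T then p else 1 := by
      intro v; split_ifs <;> ring
    simp only [this]
    rw [Finset.prod_ite_mem, Finset.univ_inter, Finset.prod_const]
  rw [← h1, h, Finset.powerset_univ]
  refine Finset.sum_congr rfl fun B _ => ?_
  rw [Finset.prod_const, wt, mul_assoc]
  congr 1
  split_ifs with hT
  · rw [mul_one, Finset.prod_congr rfl (g := fun _ => 1 - p), Finset.prod_const,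
      Finset.card_univ_sdiff]
    intro v hv
    rw [if_neg (fun e => (Finset.mem_sdiff.1 hv).2 (hT e))]
  · obtain ⟨v, h1, h2⟩ := Finset.not_subset.1 hT
    rw [mul_zero]
    exact (Finset.prod_eq_zero (i := v) (by simp [h2]) (by simp [h1])).symm

theorem E_blocks {ι : Type} (p : ℝ) (S : ι → Finset V) (s : ℕ) (hs : ∀ i, (S i).card = s)
    (hd : ∀ i j, i ≠ j → Disjoint (S i) (S j)) (I : Finset ι) :
    ∀ T : Finset V, (∀ i ∈ I, Disjoint T (S i)) →
    ∑ B : Finset V, wt p B * (if T ⊆ B ∧ ∀ i ∈ I, ¬ S i ⊆ B then 1 else 0) =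
      p ^ T.card * (1 - p ^ s) ^ I.card := by
  induction I using Finset.induction_on with
  | empty => intro T _; simpa using E_sub p T
  | insert a I ha ih =>
    intro T hT
    have h1 := ih T (fun i hi => hT i (Finset.mem_insert_of_mem hi))
    have h2 := ih (T ∪ S a) (fun i hi => Finset.disjoint_union_left.2
      ⟨hT i (Finset.mem_insert_of_mem hi), hd a i (fun e => ha (e ▸ hi))⟩)
    rw [Finset.card_union_of_disjoint (hT a (Finset.mem_insert_self _ _)), hs] at h2
    have : ∀ B : Finset V,
        wt p B * (if T ⊆ B ∧ ∀ i ∈ insert a I, ¬ S i ⊆ B then 1 else 0) =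
        wt p B * (if T ⊆ B ∧ ∀ i ∈ I, ¬ S i ⊆ B then 1 else 0) -
        wt p B * (if T ∪ S a ⊆ B ∧ ∀ i ∈ I, ¬ S i ⊆ B then 1 else 0) := by
      intro B
      simp only [Finset.forall_mem_insert, Finset.union_subset_iff]
      by_cases x1 : T ⊆ B <;> by_cases x2 : S a ⊆ B <;> by_cases x3 : ∀ i ∈ I, ¬ S i ⊆ B <;>
        simp [x1, x2, x3]
    simp only [this]
    rw [Finset.sum_sub_distrib, h1, h2, Finset.card_insert_of_notMem ha]
    ring

theorem E_miss {ι : Type} [Fintype ι] (p : ℝ) (S : ι → Finset V) (s : ℕ)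
    (hs : ∀ i, (S i).card = s) (hd : ∀ i j, i ≠ j → Disjoint (S i) (S j)) :
    ∑ B : Finset V, wt p B * (if ∀ i, ¬ S i ⊆ B then 1 else 0) =
      (1 - p ^ s) ^ Fintype.card ι := by
  simpa using E_blocks p S s hs hd univ ∅ (by simp)

theorem union_bound (G : SimpleGraph V) {p : ℝ} (h0 : 0 ≤ p) (h1 : p ≤ 1) {κ : Type} [Fintype κ]
    (bad : κ → Finset V → Prop) (h : ∀ B, (∀ j, ¬ bad j B) → IsZF G B) :
    1 - ∑ j, ∑ B : Finset V, wt p B * (if bad j B then 1 else 0) ≤ prob G p := by
  have e : ∑ B : Finset V, wt p B = 1 := by simpa using E_sub p (∅ : Finset V)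
  rw [Finset.sum_comm]
  nth_rewrite 1 [← e]
  rw [← Finset.sum_sub_distrib, prob, Finset.sum_filter]
  refine Finset.sum_le_sum fun B _ => ?_
  have hw := wt_nonneg h0 h1 B
  have hn : ∀ j ∈ (univ : Finset κ), 0 ≤ wt p B * (if bad j B then 1 else 0) := fun j _ => by
    split_ifs <;> simp [hw]
  split_ifs with hz
  · have := Finset.sum_nonneg hn
    change _ ≤ wt p B
    linarith
  · by_contra hc
    apply hz
    apply h
    intro j hj
    have := Finset.single_le_sum hn (Finset.mem_univ j)
    rw [if_pos hj] at this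
    linarith

theorem prob_zero [Nonempty V] (G : SimpleGraph V) : prob G 0 = 0 := by
  refine Finset.sum_eq_zero fun B hB => ?_
  have hz := (Finset.mem_filter.1 hB).2
  have : B.card ≠ 0 := by
    intro e
    rw [Finset.card_eq_zero] at e
    subst e
    have := hz (Classical.arbitrary V)
    generalize Classical.arbitrary V = v at this
    induction this with
    | base h => simp at h
    | force _ _ _ ih _ => exact ih
  simp [this]

theorem prob_cont (G : SimpleGraph V) : Continuous (prob G) := by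
  unfold prob; fun_prop

def gr (L k D : ℕ) : SimpleGraph (Fin (L + k) × Fin (D + 1)) where
  Adj x y := (x.2.1 = y.2.1 ∧ (y.1.1 = x.1.1 + 1 ∨ x.1.1 = y.1.1 + 1)) ∨
    (L ≤ y.1.1 ∧ y.1.1 = x.1.1 + 1 ∧ y.2.1 = x.2.1 + 1) ∨
    (L ≤ x.1.1 ∧ x.1.1 = y.1.1 + 1 ∧ x.2.1 = y.2.1 + 1) ∨
    (x.2.1 = D ∧ y.2.1 = D ∧ L ≤ x.1.1 ∧ L ≤ y.1.1 ∧ x.1.1 ≠ y.1.1)
  symm := ⟨fun x y h => by omega⟩
  loopless := ⟨fun x h => by omega⟩

theorem ne_iff {a b : ℕ} {x y : Fin a × Fin b} : x ≠ y ↔ ¬ (x.1.1 = y.1.1 ∧ x.2.1 = y.2.1) := by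
  simp [Prod.ext_iff, Fin.ext_iff]

theorem zf (L k D : ℕ) (B : Finset (Fin (L + k) × Fin (D + 1)))
    (h1 : ∀ i : Fin (D + 1), ∃ a, ∃ h : a + 1 < L,
      (⟨a, by omega⟩, i) ∈ B ∧ (⟨a + 1, by omega⟩, i) ∈ B)
    (h2 : ∀ t : Fin (L + k), L ≤ t.1 → ∃ j, (t, j) ∈ B) : IsZF (gr L k D) B := by
  let P : ℕ → ℕ → Prop := fun t i => ∀ x : Fin (L + k) × Fin (D + 1), x.1.1 = t → x.2.1 = i →
    Blue (gr L k D) B x
  have base : ∀ x ∈ B, P x.1.1 x.2.1 := by
    intro x hx y e1 e2
    obtain rfl : y = x := Prod.ext (Fin.ext e1) (Fin.ext e2)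
    exact Blue.base hx
  have frc : ∀ (t i s j : ℕ) (ht : t < L + k) (hi : i < D + 1), P t i →
      (∀ y : Fin (L + k) × Fin (D + 1), y.1.1 = s → y.2.1 = j →
        (gr L k D).Adj (⟨t, ht⟩, ⟨i, hi⟩) y) →
      (∀ y : Fin (L + k) × Fin (D + 1), (gr L k D).Adj (⟨t, ht⟩, ⟨i, hi⟩) y →
        ¬ (y.1.1 = s ∧ y.2.1 = j) → P y.1.1 y.2.1) → P s j := by
    intro t i s j ht hi a b c y e1 e2
    refine Blue.force (a (⟨t, ht⟩, ⟨i, hi⟩) rfl rfl) (b y e1 e2) fun w hw hne => ?_
    exact c w hw (by rw [ne_iff] at hne; omega) w rfl rfl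
  have low : ∀ i < D + 1, ∀ t < L, P t i := by
    intro i hi
    obtain ⟨a, ha, b1, b2⟩ := h1 ⟨i, hi⟩
    have p1 : P a i := base _ b1
    have p2 : P (a + 1) i := base _ b2
    have up : ∀ m, a + m + 1 < L → P (a + m) i ∧ P (a + m + 1) i := by
      intro m
      induction m with
      | zero => intro _; exact ⟨p1, p2⟩
      | succ m ih =>
        intro hm
        obtain ⟨q1, q2⟩ := ih (by omega)
        refine ⟨q2, frc (a + m + 1) i _ i (by omega) hi q2 ?_ ?_⟩
        · intro y e1 e2; simp only [gr]; omega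
        · intro y hy hn
          simp only [gr] at hy
          have e1 : y.1.1 = a + m := by omega
          have e2 : y.2.1 = i := by omega
          rw [e1, e2]; exact q1
    have dn : ∀ m, m ≤ a → P (a - m) i ∧ P (a - m + 1) i := by
      intro m
      induction m with
      | zero => intro _; exact ⟨p1, p2⟩
      | succ m ih =>
        intro hm
        obtain ⟨q1, q2⟩ := ih (by omega)
        refine ⟨frc (a - m) i _ i (by omega) hi q1 ?_ ?_, ?_⟩
        · intro y e1 e2; simp only [gr]; omega
        · intro y hy hn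
          simp only [gr] at hy
          have e1 : y.1.1 = a - m + 1 := by omega
          have e2 : y.2.1 = i := by omega
          rw [e1, e2]; exact q2
        · rw [show a - (m + 1) + 1 = a - m by omega]; exact q1
    intro t ht
    rcases le_or_gt t a with h | h
    · have := (dn (a - t) (by omega)).1
      rwa [show a - (a - t) = t by omega] at this
    · have := (up (t - a - 1) (by omega)).2
      rwa [show a + (t - a - 1) + 1 = t by omega] at this
  have hL : 2 ≤ L := by
    obtain ⟨a, ha, -⟩ := h1 0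
    omega
  have all : ∀ t < L + k, ∀ i < D + 1, P t i := by
    intro t
    induction t using Nat.strong_induction_on with
    | _ t ih =>
      intro ht
      rcases lt_or_ge t L with h | h
      · exact fun i hi => low i hi t h
      obtain ⟨j, hj⟩ := h2 ⟨t, ht⟩ h
      have pj : P t j.1 := base _ hj
      have stp : ∀ i, i < D → (P t i ↔ P t (i + 1)) := by
        intro i hi
        have q := ih (t - 1) (by omega) (by omega) i (by omega)
        constructor
        · intro r
          refine frc (t - 1) i _ _ (by omega) (by omega) q ?_ ?_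
          · intro y e1 e2; simp only [gr]; omega
          · intro y hy hn
            simp only [gr] at hy
            rcases lt_or_ge y.1.1 t with z | z
            · exact ih _ z y.1.2 _ y.2.2
            · have e1 : y.1.1 = t := by omega
              have e2 : y.2.1 = i := by omega
              rw [e1, e2]; exact r
        · intro r
          refine frc (t - 1) i _ _ (by omega) (by omega) q ?_ ?_
          · intro y e1 e2; simp only [gr]; omega
          · intro y hy hn
            simp only [gr] at hy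
            rcases lt_or_ge y.1.1 t with z | z
            · exact ih _ z y.1.2 _ y.2.2
            · have e1 : y.1.1 = t := by omega
              have e2 : y.2.1 = i + 1 := by omega
              rw [e1, e2]; exact r
      have z : ∀ i < D + 1, (P t i ↔ P t 0) := by
        intro i
        induction i with
        | zero => intro _; rfl
        | succ i ih2 => intro hi; rw [← stp i (by omega)]; exact ih2 (by omega)
      intro i hi
      exact (z i hi).2 ((z j.1 j.2).1 pj)
  intro x
  exact all _ x.1.2 _ x.2.2 x rfl rfl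

end Pool.Agent.H.MP_4451bf_co
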