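import Pool.Agent.H.MP_4451bf_co.A

namespace Pool.Agent.H.MP_4451bf_co

open Finset Classical

theorem prob_lb (M k D : ℕ) {p : ℝ} (h0 : 0 ≤ p) (h1 : p ≤ 1) :
    1 - ((D + 1) * (1 - p ^ 2) ^ M + k * (1 - p) ^ (D + 1)) ≤ prob (gr (2 * M) k D) p := by
  let S1 : Fin (D + 1) → Fin M → Finset (Fin (2 * M + k) × Fin (D + 1)) := fun i m =>
    {(⟨2 * m.1, by omega⟩, i), (⟨2 * m.1 + 1, by omega⟩, i)}
  let S2 : Fin k → Fin (D + 1) → Finset (Fin (2 * M + k) × Fin (D + 1)) := fun t j =>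
    {(⟨2 * M + t.1, by omega⟩, j)}
  have key := union_bound (gr (2 * M) k D) h0 h1 (κ := Fin (D + 1) ⊕ Fin k)
    (Sum.elim (fun i B => ∀ m, ¬ S1 i m ⊆ B) (fun t B => ∀ j, ¬ S2 t j ⊆ B)) (by
      intro B hB
      apply zf
      · intro i
        have := hB (Sum.inl i)
        simp only [Sum.elim_inl, not_forall, not_not] at this
        obtain ⟨m, hm⟩ := this
        exact ⟨2 * m.1, by omega, hm (by simp [S1]), hm (by simp [S1])⟩
      · intro t ht
        have := hB (Sum.inr ⟨t.1 - 2 * M, by omega⟩)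
        simp only [Sum.elim_inr, not_forall, not_not] at this
        obtain ⟨j, hj⟩ := this
        refine ⟨j, hj ?_⟩
        simp only [S2, Finset.mem_singleton, Prod.mk.injEq, and_true]
        apply Fin.ext
        simp only
        omega)
  rw [Fintype.sum_sum_type] at key
  have e1 : ∀ i, ∑ B : Finset (Fin (2 * M + k) × Fin (D + 1)),
      wt p B * (if ∀ m, ¬ S1 i m ⊆ B then 1 else 0) = (1 - p ^ 2) ^ M := by
    intro i
    have := E_miss p (S1 i) 2 (fun m => Finset.card_pair (by simp)) (fun a b hab => by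
      have : a.1 ≠ b.1 := fun e => hab (Fin.ext e)
      simp only [S1, Finset.disjoint_insert_left, Finset.mem_insert, Finset.mem_singleton,
        Finset.disjoint_singleton_left, Prod.mk.injEq, Fin.mk.injEq, and_true]
      omega)
    rw [Fintype.card_fin] at this
    convert this
  have e2 : ∀ t, ∑ B : Finset (Fin (2 * M + k) × Fin (D + 1)),
      wt p B * (if ∀ j, ¬ S2 t j ⊆ B then 1 else 0) = (1 - p) ^ (D + 1) := by
    intro t
    have := E_miss p (S2 t) 1 (fun m => Finset.card_singleton _) (fun a b hab => by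
      simp [S2, hab])
    rw [Fintype.card_fin, pow_one] at this
    convert this
  refine le_trans (le_of_eq ?_) key
  congr 2
  · rw [Finset.sum_congr rfl (g := fun _ => (1 - p ^ 2) ^ M) (fun i _ => by
      rw [← e1 i]; congr; funext B; congr)]
    simp
  · rw [Finset.sum_congr rfl (g := fun _ => (1 - p) ^ (D + 1)) (fun i _ => by
      rw [← e2 i]; congr; funext B; congr)]
    simp

theorem pow_le_exp {x : ℝ} (h1 : x ≤ 1) (m : ℕ) {A : ℝ} (h : A ≤ x * m) :
    (1 - x) ^ m ≤ Real.exp (-A) := by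
  calc (1 - x) ^ m ≤ Real.exp (-x) ^ m :=
        pow_le_pow_left₀ (by linarith) (by linarith [Real.add_one_le_exp (-x)]) m
    _ = Real.exp (m * -x) := (Real.exp_nat_mul _ _).symm
    _ ≤ _ := Real.exp_le_exp.2 (by linarith)

theorem clique (L k D : ℕ) : ∃ K : Finset (Fin (L + k) × Fin (D + 1)),
    (gr L k D).IsNClique k K := by
  refine ⟨univ.image (fun t : Fin k => (⟨L + t.1, by omega⟩, Fin.last D)), ?_, ?_⟩
  · intro x hx y hy hne
    simp only [Finset.coe_image, Finset.coe_univ, Set.image_univ, Set.mem_range] at hx hy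
    obtain ⟨a, rfl⟩ := hx
    obtain ⟨b, rfl⟩ := hy
    rw [ne_iff] at hne
    simp only [Fin.val_last, and_true] at hne
    exact Or.inr (Or.inr (Or.inr ⟨rfl, rfl, Nat.le_add_right _ _, Nat.le_add_right _ _, hne⟩))
  · rw [Finset.card_image_of_injective _ (fun a b h => by
      simp only [Prod.mk.injEq, Fin.mk.injEq, and_true] at h
      exact Fin.ext (by omega))]
    simp

theorem main (c : ℝ) (hc : 0 < c) : ∃ (V : Type) (_ : Fintype V) (G : SimpleGraph V) (k : ℕ),
    1 ≤ k ∧ (∃ K : Finset V, G.IsNClique k K) ∧ (∃ p ∈ Set.Icc (0 : ℝ) 1, prob G p = 1 / 2) ∧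
    ∀ p ∈ Set.Icc (0 : ℝ) 1, prob G p = 1 / 2 → p < c * √(k / Fintype.card V) := by
  have t1 := (Real.tendsto_pow_mul_exp_neg_atTop_nhds_zero 5).comp
    (tendsto_natCast_atTop_atTop (R := ℝ))
  have t2 := t1.eventually (gt_mem_nhds (show (0 : ℝ) < 1 / 6 by norm_num))
  have t3 := (tendsto_natCast_atTop_atTop (R := ℝ)).eventually_gt_atTop (2 / c ^ 2)
  obtain ⟨A, hA1, hA2, hA3⟩ := (t2.and (t3.and (Filter.eventually_ge_atTop 1))).exists
  simp only [Function.comp] at hA1
  have hA : (1 : ℝ) ≤ A := by exact_mod_cast hA3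
  obtain ⟨D, hD⟩ : ∃ D, A ^ 3 = D + 1 := ⟨A ^ 3 - 1, by
    have := Nat.one_le_pow 3 A hA3; omega⟩
  have hD' : (D : ℝ) + 1 = (A : ℝ) ^ 3 := by exact_mod_cast hD.symm
  have big : ∀ p : ℝ, 1 / (A : ℝ) ^ 2 ≤ p → p ≤ 1 →
      1 / 2 < prob (gr (2 * A ^ 5) (2 * A ^ 5) D) p := by
    intro p hp h1
    have h0 : 0 ≤ p := le_trans (by positivity) hp
    have hp' : 1 ≤ p * A ^ 2 := by rwa [div_le_iff₀ (by positivity)] at hp
    refine lt_of_lt_of_le ?_ (prob_lb (A ^ 5) (2 * A ^ 5) D h0 h1)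
    have b1 := pow_le_exp (x := p ^ 2) (by nlinarith) (A ^ 5) (A := A) (by
      push_cast
      have : (1 : ℝ) ≤ (p * A ^ 2) ^ 2 := one_le_pow₀ hp'
      nlinarith)
    have b2 := pow_le_exp h1 (D + 1) (A := A) (by
      push_cast
      rw [hD']
      nlinarith)
    rw [hD']
    push_cast
    have b3 : (A : ℝ) ^ 3 ≤ A ^ 5 := pow_le_pow_right₀ hA (by norm_num)
    have b4 := mul_le_mul b3 b1 (pow_nonneg (by nlinarith) _) (by positivity)
    have b5 := mul_le_mul_of_nonneg_left b2 (show (0 : ℝ) ≤ 2 * A ^ 5 by positivity)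
    linarith
  have hk : 1 ≤ 2 * A ^ 5 := by have := Nat.one_le_pow 5 A hA3; omega
  have : Nonempty (Fin (2 * A ^ 5 + 2 * A ^ 5) × Fin (D + 1)) := ⟨(⟨0, by omega⟩, 0)⟩
  refine ⟨_, inferInstance, gr (2 * A ^ 5) (2 * A ^ 5) D, 2 * A ^ 5, hk, clique _ _ _, ?_, ?_⟩
  · have h1 := big 1 (by rw [div_le_one (by positivity)]; exact one_le_pow₀ hA) le_rfl
    exact intermediate_value_Icc (zero_le_one' ℝ) (prob_cont _).continuousOn
      ⟨by rw [prob_zero]; norm_num, h1.le⟩
  · intro p hp he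
    have hlt : p < 1 / (A : ℝ) ^ 2 := by
      by_contra hn
      have := big p (not_lt.1 hn) hp.2
      linarith
    refine hlt.trans ?_
    have e : ((2 * A ^ 5 : ℕ) : ℝ) /
        (Fintype.card (Fin (2 * A ^ 5 + 2 * A ^ 5) × Fin (D + 1)) : ℝ) = 1 / (2 * A ^ 3) := by
      simp only [Fintype.card_prod, Fintype.card_fin]
      push_cast
      rw [hD']
      field_simp
      ring
    rw [e, ← div_lt_iff₀' hc]
    apply Real.lt_sqrt_of_sq_lt
    rw [div_lt_iff₀ (by positivity)] at hA2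
    rw [div_pow, div_pow, div_div, div_lt_div_iff₀ (by positivity) (by positivity)]
    have : (0 : ℝ) < A ^ 3 := by positivity
    nlinarith

end Pool.Agent.H.MP_4451bf_co
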