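import Mathlib

namespace Pool.Agent.H.MP_4451bf_co

open Classical

inductive Blue {V : Type} (G : SimpleGraph V) (B : Finset V) : V → Prop
  | base {v : V} : v ∈ B → Blue G B v
  | force {u v : V} : Blue G B u → G.Adj u v → (∀ w, G.Adj u w → w ≠ v → Blue G B w) → Blue G B v

def IsZF {V : Type} (G : SimpleGraph V) (B : Finset V) : Prop := ∀ v, Blue G B v

noncomputable def prob {V : Type} [Fintype V] (G : SimpleGraph V) (p : ℝ) : ℝ :=
  ∑ B : Finset V with IsZF G B, p ^ B.card * (1 - p) ^ (Fintype.card V - B.card)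

end Pool.Agent.H.MP_4451bf_co
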